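import Pool.Agent.W2helper19.DWDyn

/-!
# The Denjoy-Wolff set of a contracting forward composition of inner functions can have full
measure although `∑ (1 - |F_n(0)|)` diverges

For every real sequence `ε n → 0` there are degree two Blaschke products `f 0, f 1, …` whose forward
compositions `F n` are contracting, have interior orbits converging to the boundary,
`1 - |F n 0| ≥ ε n` for all large `n`, `∑ (1 - |F n 0|) = ∞`, and for which the Denjoy-Wolff set
has full arc-length measure. This answers Q1 in the negative.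

Construction: `F n = M_{p n} ∘ B n`, `M_p z = (z + p) / (1 + p z)`, where `B (n+1) = b_{r n} ∘ B n`,
`b_r z = z (z + r) / (1 + r z)`. The numbers `p n = 1 - 4 ^ (-K n)` stay constant on very long blocks;
`r n = 0` (so `b_r z = z ^ 2`) at the end of a block, and inside a block `b_{r n}` is extremely
close to the identity away from `-1`.
-/

set_option autoImplicit false

open Complex Filter Topology MeasureTheory Set

namespace Pool.Agent.Results.MP_9b5b1e_an.FullMeasureDespiteDivergence

/-- The open unit disc. -/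
def Disc : Set ℂ := {z | ‖z‖ < 1}

/-- `f` has radial limit `w` at the point `ζ` of the unit circle. -/
def HasRadialLimit (f : ℂ → ℂ) (ζ w : ℂ) : Prop :=
  Tendsto (fun t : ℝ => f (t * ζ)) (𝓝[<] 1) (𝓝 w)

/-- The point `e ^ (iθ)` of the unit circle. -/
noncomputable def circ (θ : ℝ) : ℂ := Complex.exp (θ * Complex.I)

/-- Arc-length (outer) measure of a set of points of the unit circle. -/
noncomputable def arcLength (E : Set ℂ) : ENNReal :=
  volume {θ : ℝ | θ ∈ Ioc 0 (2 * Real.pi) ∧ circ θ ∈ E}

/-- Inner functions: holomorphic self-maps of the disc whose radial limits exist and have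
modulus one except on a subset of the circle of zero arc-length. -/
structure IsInner (f : ℂ → ℂ) : Prop where
  holo : DifferentiableOn ℂ f Disc
  maps : MapsTo f Disc Disc
  bdry : arcLength {ζ | ¬ ∃ w : ℂ, HasRadialLimit f ζ w ∧ ‖w‖ = 1} = 0

/-- The forward compositions: `fwd f n = f (n-1) ∘ ⋯ ∘ f 0`. -/
def fwd (f : ℕ → ℂ → ℂ) : ℕ → ℂ → ℂ
  | 0 => id
  | n + 1 => f n ∘ fwd f n

/-- Pseudohyperbolic distance in the disc. -/
noncomputable def pseudoDist (z w : ℂ) : ℝ := ‖(z - w) / (1 - (starRingEnd ℂ) w * z)‖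

/-- Hyperbolic distance in the disc (curvature `-1`). -/
noncomputable def hypDist (z w : ℂ) : ℝ := Real.log ((1 + pseudoDist z w) / (1 - pseudoDist z w))

/-- The forward composition of the sequence `f` is contracting. -/
def Contracting (f : ℕ → ℂ → ℂ) : Prop :=
  ∀ z ∈ Disc, ∀ z' ∈ Disc, Tendsto (fun n => hypDist (fwd f n z) (fwd f n z')) atTop (𝓝 0)

/-- Interior orbits converge to the boundary. -/
def OrbitsToBoundary (f : ℕ → ℂ → ℂ) : Prop :=
  ∀ z ∈ Disc, Tendsto (fun n => ‖fwd f n z‖) atTop (𝓝 1)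

/-- The Denjoy-Wolff set: the points `ζ` of the circle at which all `fwd f n` have radial limits
`w n` and `|w n - F n 0| → 0`. -/
def denjoyWolffSet (f : ℕ → ℂ → ℂ) : Set ℂ :=
  {ζ | ‖ζ‖ = 1 ∧ ∃ w : ℕ → ℂ, (∀ n, HasRadialLimit (fwd f n) ζ (w n)) ∧
    Tendsto (fun n => ‖w n - fwd f n 0‖) atTop (𝓝 0)}

/-- The disc automorphism `z ↦ (z + p) / (1 + p z)`, for `-1 < p < 1`. -/
noncomputable def M (p : ℝ) (z : ℂ) : ℂ := (z + p) / (1 + p * z)

open Pool.Agent.W2helper19.DW in
lemma radial_of_good {h : ℂ → ℂ} (H : Good h) {ζ : ℂ} (hζ : ‖ζ‖ = 1) :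
    HasRadialLimit h ζ (h ζ) := by
  have hmem : ζ ∈ Metric.closedBall (0 : ℂ) 1 := by simp [hζ]
  have h1 := H.cont ζ hmem
  have h2 : Tendsto (fun t : ℝ => (t : ℂ) * ζ) (𝓝[<] 1) (𝓝[Metric.closedBall 0 1] ζ) := by
    apply tendsto_nhdsWithin_of_tendsto_nhds_of_eventually_within
    · have : Continuous (fun t : ℝ => (t : ℂ) * ζ) := by fun_prop
      have h3 := (this.tendsto 1).mono_left (nhdsWithin_le_nhds (s := Iio (1 : ℝ)))
      simpa using h3
    · have h4 : ∀ᶠ t : ℝ in 𝓝[<] 1, t ∈ Ioo (0 : ℝ) 1 := Ioo_mem_nhdsLT (by norm_num)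
      filter_upwards [h4] with t ht
      rw [Metric.mem_closedBall, dist_zero_right, norm_mul, hζ, mul_one, Complex.norm_real,
        Real.norm_eq_abs, abs_of_pos ht.1]
      exact ht.2.le
  exact h1.tendsto.comp h2

lemma norm_circ (θ : ℝ) : ‖circ θ‖ = 1 := Complex.norm_exp_ofReal_mul_I θ

open Pool.Agent.W2helper19.DW in
lemma isInner_of_good {h : ℂ → ℂ} (H : Good h) : IsInner h where
  holo := by
    have : Disc = Metric.ball (0 : ℂ) 1 := by ext z; simp [Disc]
    rw [this]
    exact H.diff
  maps := fun z hz => H.maps z hz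
  bdry := by
    have : {θ : ℝ | θ ∈ Ioc 0 (2 * Real.pi) ∧
        circ θ ∈ {ζ | ¬ ∃ w : ℂ, HasRadialLimit h ζ w ∧ ‖w‖ = 1}} = ∅ := by
      ext θ
      simp only [mem_ofPred_eq, mem_empty_iff_false, iff_false, not_and, not_not]
      intro _
      exact ⟨h (circ θ), radial_of_good H (norm_circ θ), H.bd _ (norm_circ θ)⟩
    rw [arcLength, this, measure_empty]

open Pool.Agent.W2helper19.DW in
/-- **Theorem** (negative answer to Q1). Let `ε n` be any real sequence tending to `0`. There are
inner functions `f 0, f 1, …`, none of them injective in the disc, each of them a degree two Blaschke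
product of the form `M q ∘ (z ↦ z * M r z) ∘ M (-p)`, such that the forward composition is
contracting, interior orbits converge to the boundary, `ε n ≤ 1 - |F n 0|` for all large `n`, the
series `∑ (1 - |F n 0|)` diverges, and the Denjoy-Wolff set has full arc-length measure `2 π` (its
complement in the circle has arc-length zero). -/
theorem result (ε : ℕ → ℝ) (hε : Tendsto ε atTop (𝓝 0)) :
    ∃ f : ℕ → ℂ → ℂ,
      (∀ n, IsInner (f n)) ∧
      (∀ n, ∃ p q r : ℝ, 0 ≤ p ∧ p < 1 ∧ 0 ≤ q ∧ q < 1 ∧ 0 ≤ r ∧ r < 1 ∧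
        ∀ z, f n z = M q (M (-p) z * M r (M (-p) z))) ∧
      (∀ n, ¬ InjOn (f n) Disc) ∧
      Contracting f ∧
      OrbitsToBoundary f ∧
      (∀ᶠ n in atTop, ε n ≤ 1 - ‖fwd f n 0‖) ∧
      ¬ Summable (fun n => 1 - ‖fwd f n 0‖) ∧
      arcLength (denjoyWolffSet f) = ENNReal.ofReal (2 * Real.pi) ∧
      arcLength (denjoyWolffSet f)ᶜ = 0 := by
  have hε' : Tendsto (fun n : ℕ => max (ε n) (1 / ((n : ℝ) + 1))) atTop (𝓝 0) := by
    have := hε.max tendsto_one_div_add_atTop_nhds_zero_nat
    simpa using this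
  obtain ⟨K, hK0, hm, hK, hKε⟩ := exists_K hε'
  have hM : ∀ p z, M p z = mob p z := fun p z => rfl
  set f : ℕ → ℂ → ℂ := fun n => mob (pp K (n + 1)) ∘ bl (rr K n) ∘ mob (-pp K n) with hf
  have hgoodf : ∀ n, Good (f n) := fun n =>
    (good_mob (pp_abs K (n + 1))).comp ((good_bl (rr_abs K n)).comp (good_mob (pp_abs' K n)))
  have hp0 : pp K 0 = 0 := by simp [pp, u, hK0]
  have hfwd : ∀ n, ∀ z : ℂ, ‖z‖ ≤ 1 → fwd f n z = mob (pp K n) (BB K n z) := by
    intro n
    induction n with
    | zero => intro z _; simp [fwd, BB, hp0, mob_zero]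
    | succ n ih =>
      intro z hz
      have h1 : fwd f (n + 1) z = f n (fwd f n z) := rfl
      have h2 : f n (fwd f n z) =
          mob (pp K (n + 1)) (bl (rr K n) (mob (-pp K n) (fwd f n z))) := rfl
      rw [h1, h2, ih z hz, mob_neg_mob (pp_abs K n) ((good_BB K n).le hz)]
      rfl
  have hF0 : ∀ n, fwd f n 0 = (pp K n : ℂ) := by
    intro n
    rw [hfwd n 0 (by simp), BB_zero, mob_at_zero]
  have hF0n : ∀ n, ‖fwd f n 0‖ = pp K n := by
    intro n
    rw [hF0, Complex.norm_real, Real.norm_eq_abs, abs_of_nonneg (pp_nonneg K n)]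
  have hu : ∀ n, 1 - ‖fwd f n 0‖ = u K n ^ 2 := by
    intro n
    rw [hF0n]
    unfold pp
    ring
  have hgoodF : ∀ n, Good (fwd f n) := by
    intro n
    induction n with
    | zero => exact good_id
    | succ n ih => exact (hgoodf n).comp ih
  -- a.e. convergence on the boundary
  have hae : ∀ᵐ θ ∂(volume.restrict (Ioc (0 : ℝ) (2 * Real.pi))), circ θ ∈ denjoyWolffSet f := by
    filter_upwards [ae_not_bad (K := K) hm] with θ hθ
    refine ⟨norm_circ θ, fun n => fwd f n (circ θ), fun n => radial_of_good (hgoodF n)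
      (norm_circ θ), ?_⟩
    have h1 := boundary_tendsto hK hm hθ
    have h2 : Tendsto (fun n => fwd f n (circ θ)) atTop (𝓝 1) := by
      apply h1.congr
      intro n
      rw [hfwd n _ (norm_circ θ).le]
      rfl
    have h3 : Tendsto (fun n => fwd f n 0) atTop (𝓝 1) := by
      have := (Complex.continuous_ofReal.tendsto 1).comp (pp_tendsto hK)
      simp only [Complex.ofReal_one] at this
      apply this.congr
      intro n
      rw [hF0]
      rfl
    have h4 := (h2.sub h3).norm
    simpa using h4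
  have hcompl : arcLength (denjoyWolffSet f)ᶜ = 0 := by
    rw [ae_restrict_iff' measurableSet_Ioc, ae_iff] at hae
    rw [arcLength]
    convert hae using 2
    ext θ
    simp only [mem_ofPred_eq, mem_compl_iff]
    push Not
    rfl
  refine ⟨f, fun n => isInner_of_good (hgoodf n), ?_, ?_, ?_, ?_, ?_, ?_, ?_, hcompl⟩
  · intro n
    exact ⟨pp K n, pp K (n + 1), rr K n, pp_nonneg K n, pp_lt_one K n, pp_nonneg K (n + 1),
      pp_lt_one K (n + 1), rr_nonneg K n, rr_lt_one K n, fun z => rfl⟩
  · intro n hinj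
    have key : ∀ w₁ w₂ : ℂ, ‖w₁‖ < 1 → ‖w₂‖ < 1 → bl (rr K n) w₁ = bl (rr K n) w₂ → w₁ = w₂ := by
      intro w₁ w₂ h₁ h₂ h
      have hz : ∀ w : ℂ, ‖w‖ < 1 → mob (-pp K n) (mob (pp K n) w) = w := fun w hw =>
        mob_neg_mob (pp_abs K n) hw.le
      have h3 : mob (pp K n) w₁ = mob (pp K n) w₂ := by
        apply hinj (norm_mob_lt (pp_abs K n) h₁) (norm_mob_lt (pp_abs K n) h₂)
        change mob (pp K (n + 1)) (bl (rr K n) (mob (-pp K n) (mob (pp K n) w₁))) =
          mob (pp K (n + 1)) (bl (rr K n) (mob (-pp K n) (mob (pp K n) w₂)))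
        rw [hz _ h₁, hz _ h₂, h]
      rw [← hz _ h₁, ← hz _ h₂, h3]
    by_cases hr : rr K n = 0
    · have h := key (1 / 2) (-(1 / 2)) (by norm_num) (by norm_num) (by
        rw [hr, bl, bl, mob_zero, mob_zero]; ring)
      norm_num at h
    · have h := key 0 (-(rr K n : ℂ)) (by norm_num) (by
        rw [norm_neg, Complex.norm_real, Real.norm_eq_abs]
        exact rr_abs K n) (by
        rw [bl_zero, bl, mob]; simp)
      have : (rr K n : ℂ) = 0 := by
        rw [eq_comm, neg_eq_zero] at h
        exact h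
      exact hr (by exact_mod_cast this)
  · intro z hz z' hz'
    have hz1 : ‖z‖ < 1 := hz
    have hz1' : ‖z'‖ < 1 := hz'
    have h1 : ∀ n, pseudoDist (fwd f n z) (fwd f n z') = pseudo (BB K n z) (BB K n z') := by
      intro n
      have : pseudoDist (fwd f n z) (fwd f n z') = pseudo (fwd f n z) (fwd f n z') := rfl
      rw [this, hfwd n z hz1.le, hfwd n z' hz1'.le]
      exact pseudo_mob (pp_abs K n) ((good_BB K n).maps z hz1) ((good_BB K n).maps z' hz1')
    have h2 : Tendsto (fun n => pseudoDist (fwd f n z) (fwd f n z')) atTop (𝓝 0) := by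
      simp only [h1]
      have ha := BB_tendsto hK hz1
      have hb := BB_tendsto hK hz1'
      have hc : Tendsto (fun n => (starRingEnd ℂ) (BB K n z')) atTop (𝓝 0) := by
        have := (Complex.continuous_conj.tendsto 0).comp hb
        rw [map_zero] at this
        exact this
      have hd := ((ha.sub hb).div ((hc.mul ha).const_sub 1) (by norm_num)).norm
      simpa [pseudo] using hd
    have h3 : Tendsto (fun x : ℝ => Real.log ((1 + x) / (1 - x))) (𝓝 0) (𝓝 0) := by
      have : ContinuousAt (fun x : ℝ => Real.log ((1 + x) / (1 - x))) 0 := by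
        apply ContinuousAt.log
        · apply ContinuousAt.div (by fun_prop) (by fun_prop)
          norm_num
        · norm_num
      have h := this.tendsto
      simpa using h
    exact h3.comp h2
  · intro z hz
    have hz1 : ‖z‖ < 1 := hz
    have ha := BB_tendsto hK hz1
    have hb : Tendsto (fun n => (pp K n : ℂ)) atTop (𝓝 1) := by
      have := (Complex.continuous_ofReal.tendsto 1).comp (pp_tendsto hK)
      simp only [Complex.ofReal_one] at this
      exact this
    have hc : Tendsto (fun n => (BB K n z + pp K n) / (1 + pp K n * BB K n z)) atTop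
        (𝓝 ((0 + 1) / (1 + 1 * 0))) :=
      (ha.add hb).div ((hb.mul ha).const_add 1) (by norm_num)
    have hd := hc.norm
    have h1 : ‖((0 : ℂ) + 1) / (1 + 1 * 0)‖ = 1 := by norm_num
    rw [h1] at hd
    apply hd.congr
    intro n
    rw [hfwd n z hz1.le]
    rfl
  · filter_upwards [hKε] with n hn
    rw [hu]
    exact (le_max_left _ _).trans hn
  · intro hs
    have hbound : ∀ᶠ n : ℕ in atTop, ‖1 / ((n : ℝ) + 1)‖ ≤ 1 - ‖fwd f n 0‖ := by
      filter_upwards [hKε] with n hn
      rw [hu, Real.norm_eq_abs, abs_of_nonneg (by positivity)]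
      exact (le_max_right _ _).trans hn
    have hs2 : Summable (fun n : ℕ => 1 / ((n : ℝ) + 1)) :=
      Summable.of_norm_bounded_eventually_nat hs hbound
    have hs3 : Summable (fun n : ℕ => 1 / (n : ℝ)) := by
      rw [← summable_nat_add_iff 1]
      simpa using hs2
    exact Real.not_summable_one_div_natCast hs3
  · have h1 : arcLength univ = ENNReal.ofReal (2 * Real.pi) := by
      rw [arcLength]
      have : {θ : ℝ | θ ∈ Ioc 0 (2 * Real.pi) ∧ circ θ ∈ univ} = Ioc 0 (2 * Real.pi) := by
        ext θ; simp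
      rw [this, Real.volume_Ioc, sub_zero]
    apply le_antisymm
    · rw [← h1]
      apply measure_mono
      rintro θ ⟨h, _⟩
      exact ⟨h, mem_univ _⟩
    · rw [← h1]
      calc arcLength univ ≤ arcLength (denjoyWolffSet f) + arcLength (denjoyWolffSet f)ᶜ := by
            unfold arcLength
            refine (measure_mono ?_).trans (measure_union_le _ _)
            rintro θ ⟨h, _⟩
            by_cases hθ : circ θ ∈ denjoyWolffSet f
            · exact Or.inl ⟨h, hθ⟩
            · exact Or.inr ⟨h, hθ⟩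
        _ = arcLength (denjoyWolffSet f) := by rw [hcompl, add_zero]

end Pool.Agent.Results.MP_9b5b1e_an.FullMeasureDespiteDivergence
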